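import Pool.Agent.N69.NS.Lev
import Pool.Agent.N44.NS.Stm

/-!
# The level sets step of project NS
-/

set_option autoImplicit false

namespace Pool.Agent.N69.NS

theorem t_level : Pool.Agent.N44.NS.S_LEVEL := level

end Pool.Agent.N69.NS
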