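import Pool.Agent.N303.KS.Mov

/-!
# Level sets of a monotone function on an irreducible piece
-/

set_option autoImplicit false

namespace Pool.Agent.N69.NS

open Finset Pool.Agent.N303.KS

noncomputable section

variable {V : Type} [Fintype V] {m : ℕ}

/-- a median -/
theorem exists_median {P : V → Prop} (hP : 0 < ct P) (X : V → ℝ) :
    ∃ x₀, P x₀ ∧ ct P ≤ 2 * (ct fun x => P x ∧ X x₀ ≤ X x) ∧
      2 * (ct fun x => P x ∧ X x₀ < X x) ≤ ct P := by
  classical
  obtain ⟨a, ha⟩ := ct_pos hP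
  have hne : (univ.filter P).Nonempty := ⟨a, by simpa using ha⟩
  obtain ⟨b, hb, hmin⟩ := exists_min_image (univ.filter P) X hne
  have hbP : P b := by simpa using hb
  have hb2 : (ct fun x => P x ∧ X b ≤ X x) = ct P :=
    ct_congr fun x => ⟨fun h => h.1, fun h => ⟨h, hmin x (by simpa using h)⟩⟩
  set S := univ.filter fun x => P x ∧ ct P ≤ 2 * (ct fun y => P y ∧ X x ≤ X y) with hS
  have hSne : S.Nonempty := ⟨b, by
    rw [hS, mem_filter]
    refine ⟨mem_univ _, hbP, ?_⟩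
    rw [hb2]
    linarith [ct_nonneg P]⟩
  obtain ⟨x₀, hx₀, hmax⟩ := exists_max_image S X hSne
  obtain ⟨-, h1, h2⟩ := mem_filter.1 hx₀
  refine ⟨x₀, h1, h2, ?_⟩
  by_cases hE : ∃ y, P y ∧ X x₀ < X y
  · obtain ⟨y₀, hy₀⟩ := hE
    have hne2 : (univ.filter fun y => P y ∧ X x₀ < X y).Nonempty := ⟨y₀, by simpa using hy₀⟩
    obtain ⟨c, hc, hcmin⟩ := exists_min_image _ X hne2
    obtain ⟨-, hcP, hcX⟩ := mem_filter.1 hc
    have h3 : (ct fun x => P x ∧ X x₀ < X x) = ct fun x => P x ∧ X c ≤ X x :=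
      ct_congr fun x => ⟨fun h => ⟨h.1, hcmin x (by simpa using h)⟩,
        fun h => ⟨h.1, hcX.trans_le h.2⟩⟩
    rw [h3]
    by_contra hlt
    rw [not_le] at hlt
    have h4 : c ∈ S := by
      rw [hS, mem_filter]
      exact ⟨mem_univ _, hcP, hlt.le⟩
    exact absurd (hmax c h4) (not_le.2 hcX)
  · rw [ct_false fun x hx => hE ⟨x, hx⟩]
    linarith [ct_nonneg P]

/-- one of `J` slices is small -/
theorem exists_slice {P : V → Prop} {X : V → ℝ} {c : ℝ} (hc : 0 < c) (hc1 : c < 1) {t : ℝ}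
    (ht : 0 < t) {J : ℕ} (hJ : 0 < J) :
    ∃ j ∈ Finset.Icc 1 J, J * (ct fun x => P x ∧ c ^ j * t < X x ∧ c * X x ≤ c ^ j * t) ≤ ct P := by
  classical
  by_contra hcon
  push Not at hcon
  have h1 : ∑ j ∈ Finset.Icc 1 J, (ct fun x => P x ∧ c ^ j * t < X x ∧ c * X x ≤ c ^ j * t) ≤
      ct P := by
    have h2 : ∀ s : Finset ℕ, ∑ j ∈ s, (ct fun x => P x ∧ c ^ j * t < X x ∧ c * X x ≤ c ^ j * t) =
        ct fun x => ∃ j ∈ s, P x ∧ c ^ j * t < X x ∧ c * X x ≤ c ^ j * t := by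
      intro s
      induction s using Finset.induction_on with
      | empty => rw [sum_empty, ct_false]; simp
      | insert i s hi ih =>
        rw [sum_insert hi, ih, ct_split (fun x => ∃ j ∈ insert i s, P x ∧ c ^ j * t < X x ∧
          c * X x ≤ c ^ j * t) (fun x => P x ∧ c ^ i * t < X x ∧ c * X x ≤ c ^ i * t)]
        congr 1
        · refine ct_congr fun x => ⟨fun h => ⟨⟨i, mem_insert_self _ _, h⟩, h⟩, fun h => h.2⟩
        · refine ct_congr fun x => ⟨?_, ?_⟩
          · rintro ⟨j, hj, h⟩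
            refine ⟨⟨j, mem_insert_of_mem hj, h⟩, fun h' => ?_⟩
            have hne : i ≠ j := fun h => hi (h ▸ hj)
            rcases lt_or_gt_of_ne hne with hlt | hlt
            · have h3 : c ^ j ≤ c * c ^ i := by
                rw [← pow_succ']
                exact pow_le_pow_of_le_one hc.le hc1.le hlt
              have h4 := mul_lt_mul_of_pos_left h'.2.1 hc
              have h5 := mul_le_mul_of_nonneg_right h3 ht.le
              linarith [h.2.2]
            · have h3 : c ^ i ≤ c * c ^ j := by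
                rw [← pow_succ']
                exact pow_le_pow_of_le_one hc.le hc1.le hlt
              have h4 := mul_lt_mul_of_pos_left h.2.1 hc
              have h5 := mul_le_mul_of_nonneg_right h3 ht.le
              linarith [h'.2.2]
          · rintro ⟨⟨j, hj, h⟩, h'⟩
            rcases mem_insert.1 hj with rfl | hj
            · exact absurd h h'
            · exact ⟨j, hj, h⟩
    rw [h2]
    exact ct_mono fun x ⟨j, _, h⟩ => h.1
  have h2 : ∑ j ∈ Finset.Icc 1 J, ct P < ∑ j ∈ Finset.Icc 1 J,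
      (J * ct fun x => P x ∧ c ^ j * t < X x ∧ c * X x ≤ c ^ j * t) :=
    sum_lt_sum_of_nonempty ⟨1, by simp; omega⟩ hcon
  rw [← mul_sum, sum_const, Nat.card_Icc, nsmul_eq_mul] at h2
  have h3 : (0 : ℝ) < J := by exact_mod_cast hJ
  have h4 := mul_le_mul_of_nonneg_left h1 h3.le
  simp only [Nat.add_sub_cancel] at h2
  linarith

/-- on an irreducible piece an almost monotone function is almost constant -/
theorem level_piece {ρ : FreeGroup (Fin m) →* Equiv.Perm V} {P : V → Prop} {κ τ : ℝ}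
    (irr : ∀ p : V → Prop, (∀ x, p x → P x) → bd ρ p ≤ τ * ct P →
      ct p ≤ κ * ct P ∨ (1 - κ) * ct P ≤ ct p)
    (hκ : κ ≤ 1 / 100) (hP : 0 < ct P) {X : V → ℝ} (hX : ∀ x, 0 ≤ X x) {c : ℝ} (hc : 0 < c)
    (hc1 : c < 1)
    (hbad : bd ρ P + ∑ s, (ct fun x => P x ∧ X ((ρ (FreeGroup.of s))⁻¹ x) < c * X x) ≤
      τ / 2 * ct P)
    {J : ℕ} (hJ0 : 0 < J) (hJ : 2 * (m : ℝ) ≤ τ * J) :
    ct P ≤ 2 * (ct fun x => P x ∧ X x = 0) ∨
      ∃ M, 0 < M ∧ (ct fun x => P x ∧ ¬ (c ^ J * M ≤ X x ∧ c ^ J * X x ≤ M)) ≤ 2 * κ * ct P := by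
  classical
  have hJ1 : (0 : ℝ) < J := by exact_mod_cast hJ0
  have key : ∀ t, 0 < t → ∃ j ∈ Finset.Icc 1 J,
      (ct fun x => P x ∧ c ^ j * t < X x) ≤ κ * ct P ∨
        (1 - κ) * ct P ≤ ct fun x => P x ∧ c ^ j * t < X x := by
    intro t ht
    obtain ⟨j, hj, hsl⟩ := exists_slice (P := P) (X := X) hc hc1 ht hJ0
    refine ⟨j, hj, irr (fun x => P x ∧ c ^ j * t < X x) (fun x hx => hx.1) ?_⟩
    have h1 : bd ρ (fun x => P x ∧ c ^ j * t < X x) ≤ bd ρ P +
        (∑ s, (ct fun x => P x ∧ X ((ρ (FreeGroup.of s))⁻¹ x) < c * X x)) +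
        ∑ s : Fin m, (ct fun x => P x ∧ c ^ j * t < X x ∧ c * X x ≤ c ^ j * t) := by
      unfold bd
      rw [← sum_add_distrib, ← sum_add_distrib]
      refine sum_le_sum fun s _ => ?_
      rw [← ct_inv_bd, ← ct_inv_bd (ρ (FreeGroup.of s)) P]
      refine (ct_le_add (q := fun x => (P x ∧ ¬ P ((ρ (FreeGroup.of s))⁻¹ x)) ∨
        (P x ∧ X ((ρ (FreeGroup.of s))⁻¹ x) < c * X x))
        (r := fun x => P x ∧ c ^ j * t < X x ∧ c * X x ≤ c ^ j * t) ?_).trans
        (add_le_add (ct_le_add fun x hx => hx) le_rfl)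
      rintro x ⟨⟨h1, h2⟩, h3⟩
      by_cases h4 : P ((ρ (FreeGroup.of s))⁻¹ x)
      · by_cases h5 : X ((ρ (FreeGroup.of s))⁻¹ x) < c * X x
        · exact Or.inl (Or.inr ⟨h1, h5⟩)
        · right
          refine ⟨h1, h2, ?_⟩
          rw [not_lt] at h5
          by_contra h6
          rw [not_le] at h6
          exact h3 ⟨h4, h6.trans_le h5⟩
      · exact Or.inl (Or.inl ⟨h1, h4⟩)
    rw [sum_const, card_univ, Fintype.card_fin, nsmul_eq_mul] at h1
    set y := ct fun x => P x ∧ c ^ j * t < X x ∧ c * X x ≤ c ^ j * t with hy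
    have hy0 : 0 ≤ y := ct_nonneg _
    have h2 : 2 * (m : ℝ) * (J * y) ≤ τ * J * ct P := by
      calc 2 * (m : ℝ) * (J * y) ≤ 2 * (m : ℝ) * ct P :=
            mul_le_mul_of_nonneg_left hsl (by positivity)
        _ ≤ _ := mul_le_mul_of_nonneg_right hJ hP.le
    have h3 : (m : ℝ) * y ≤ τ / 2 * ct P := by
      have h4 : J * (2 * (m : ℝ) * y) ≤ J * (τ * ct P) := by linarith
      have h5 := le_of_mul_le_mul_left h4 hJ1
      linarith
    linarith
  obtain ⟨x₀, -, hm1, hm2⟩ := exists_median hP X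
  rcases (hX x₀).eq_or_lt with h0 | h0
  · left
    rw [← h0] at hm2
    have h1 := ct_split P (fun x => X x = 0)
    have h2 : (ct fun x => P x ∧ ¬ X x = 0) = ct fun x => P x ∧ 0 < X x :=
      ct_congr fun x => and_congr_right fun _ =>
        ⟨fun h => lt_of_le_of_ne (hX x) (Ne.symm h), fun h => h.ne'⟩
    linarith
  · right
    refine ⟨X x₀, h0, ?_⟩
    have low : (ct fun x => P x ∧ X x < c ^ J * X x₀) ≤ κ * ct P := by
      obtain ⟨j, hj, h⟩ := key (X x₀) h0
      rw [Finset.mem_Icc] at hj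
      have h1 : (ct fun x => P x ∧ X x₀ ≤ X x) ≤ ct fun x => P x ∧ c ^ j * X x₀ < X x :=
        ct_mono fun x hx => ⟨hx.1, lt_of_lt_of_le (by
          have : c ^ j < 1 := pow_lt_one₀ hc.le hc1 (by omega)
          nlinarith) hx.2⟩
      have h2 : (1 - κ) * ct P ≤ ct fun x => P x ∧ c ^ j * X x₀ < X x :=
        h.resolve_left fun h3 => by nlinarith
      have h3 := ct_split P (fun x => c ^ j * X x₀ < X x)
      have h4 : (ct fun x => P x ∧ X x < c ^ J * X x₀) ≤
          ct fun x => P x ∧ ¬ c ^ j * X x₀ < X x := ct_mono fun x hx => ⟨hx.1, fun h5 => by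
        have h6 : c ^ J ≤ c ^ j := pow_le_pow_of_le_one hc.le hc1.le hj.2
        have h7 := mul_le_mul_of_nonneg_right h6 h0.le
        linarith [hx.2]⟩
      linarith
    have up : (ct fun x => P x ∧ X x₀ < c ^ J * X x) ≤ κ * ct P := by
      have hcJ : 0 < c ^ J := pow_pos hc J
      obtain ⟨j, hj, h⟩ := key (X x₀ / c ^ J) (by positivity)
      rw [Finset.mem_Icc] at hj
      have h1 : (ct fun x => P x ∧ c ^ j * (X x₀ / c ^ J) < X x) ≤
          ct fun x => P x ∧ X x₀ < X x := ct_mono fun x hx => ⟨hx.1, lt_of_le_of_lt (by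
        have h6 : c ^ J ≤ c ^ j := pow_le_pow_of_le_one hc.le hc1.le hj.2
        rw [mul_div_assoc', le_div_iff₀ hcJ]
        nlinarith) hx.2⟩
      have h2 : (ct fun x => P x ∧ c ^ j * (X x₀ / c ^ J) < X x) ≤ κ * ct P :=
        h.resolve_right fun h3 => by nlinarith
      refine le_trans (ct_mono fun x hx => ⟨hx.1, ?_⟩) h2
      have h6 : c ^ j ≤ 1 := pow_le_one₀ hc.le hc1.le
      have h7 : X x₀ / c ^ J < X x := by
        rw [div_lt_iff₀ hcJ]
        linarith [hx.2]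
      have h8 : 0 < X x₀ / c ^ J := by positivity
      nlinarith
    have := ct_le_add (p := fun x => P x ∧ ¬ (c ^ J * X x₀ ≤ X x ∧ c ^ J * X x ≤ X x₀))
      (q := fun x => P x ∧ X x < c ^ J * X x₀) (r := fun x => P x ∧ X x₀ < c ^ J * X x)
      (fun x hx => by
        by_cases h1 : c ^ J * X x₀ ≤ X x
        · right
          refine ⟨hx.1, ?_⟩
          by_contra h2
          exact hx.2 ⟨h1, not_lt.1 h2⟩
        · exact Or.inl ⟨hx.1, not_le.1 h1⟩)
    linarith

theorem level : ∀ (m : ℕ) (κ τ δ : ℝ), 0 < κ → κ ≤ 1 / 100 → 0 < τ → 0 < δ → δ ≤ 1 →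
    ∃ b : ℝ, 0 < b ∧ b ≤ κ ∧
      ∀ (V : Type) [Fintype V] (ρ : FreeGroup (Fin m) →* Equiv.Perm V) (L : V → Option V)
        (X : V → ℝ),
        (ct fun x => L x = none) ≤ κ * Fintype.card V →
        (∀ e, bd ρ (fun x => L x = some e) ≤ b * sz L e) →
        (∀ e, ∀ p : V → Prop, (∀ x, p x → L x = some e) → bd ρ p ≤ τ * sz L e →
          ct p ≤ κ * sz L e ∨ (1 - κ) * sz L e ≤ ct p) →
        (∀ x, 0 ≤ X x) → (ct fun x => X x = 0) ≤ b * Fintype.card V →
        (∀ s, (ct fun x => X ((ρ (FreeGroup.of s))⁻¹ x) < (1 - b) * X x) ≤ b * Fintype.card V) →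
        ∀ s, (ct fun x => ¬ X ((ρ (FreeGroup.of s))⁻¹ x) ≤ (1 + δ) * X x) ≤
          20 * κ * Fintype.card V := by
  classical
  intro m κ τ δ hκ hκ1 hτ hδ hδ1
  obtain ⟨J, hJ⟩ : ∃ J : ℕ, 2 * (m : ℝ) / τ < J := exists_nat_gt _
  have hJ1 : (0 : ℝ) < J := lt_of_le_of_lt (by positivity) hJ
  have hJ0 : 0 < J := by exact_mod_cast hJ1
  have hJ2 : 2 * (m : ℝ) ≤ τ * J := by
    rw [div_lt_iff₀ hτ] at hJ
    linarith
  set b : ℝ := min (min κ (κ * τ / (2 * (m + 1)))) (min (1 / 2) (δ / (4 * J))) with hb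
  have hb0 : 0 < b := by positivity
  have hb1 : b ≤ κ := (min_le_left _ _).trans (min_le_left _ _)
  have hb2 : b ≤ κ * τ / (2 * (m + 1)) := (min_le_left _ _).trans (min_le_right _ _)
  have hb3 : b ≤ 1 / 2 := (min_le_right _ _).trans (min_le_left _ _)
  have hb4 : b ≤ δ / (4 * J) := (min_le_right _ _).trans (min_le_right _ _)
  have hb5 : b * (2 * (m + 1)) ≤ κ * τ := by
    rwa [le_div_iff₀ (by positivity)] at hb2
  have hb6 : b * (4 * J) ≤ δ := by
    rwa [le_div_iff₀ (by positivity)] at hb4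
  have hc0 : 0 < 1 - b := by linarith
  have hc1 : 1 - b < 1 := by linarith
  have hcJ0 : 0 < (1 - b) ^ J := pow_pos hc0 J
  have hcJ : 1 ≤ (1 + δ) * ((1 - b) ^ J * (1 - b) ^ J) := by
    have h1 : 1 + ((2 * J : ℕ) : ℝ) * (-b) ≤ (1 + (-b)) ^ (2 * J) :=
      one_add_mul_le_pow (by linarith) _
    have h2 : (1 + (-b)) ^ (2 * J) = (1 - b) ^ J * (1 - b) ^ J := by
      rw [← pow_add, two_mul, sub_eq_add_neg]
    rw [h2] at h1
    push_cast at h1
    nlinarith
  refine ⟨b, hb0, hb1, ?_⟩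
  intro V _ ρ L X hcov hbd hirr hX hX0 hmon s
  set n : ℝ := (Fintype.card V : ℝ) with hn
  have hn0 : 0 ≤ n := Nat.cast_nonneg _
  have hszn : ∑ e, sz L e ≤ n := by
    rw [sum_sz]
    have := ct_nonneg fun x => L x = none
    linarith
  have hfib : ∀ q : V → Prop, ∑ e, (ct fun x => L x = some e ∧ q x) ≤ ct q := by
    intro q
    rw [ct_fiber q L, Fintype.sum_option]
    have h1 := ct_nonneg fun x => q x ∧ L x = none
    have h2 : ∑ e, (ct fun x => L x = some e ∧ q x) = ∑ e, ct fun x => q x ∧ L x = some e :=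
      sum_congr rfl fun e _ => ct_congr fun x => and_comm
    linarith
  -- bad pieces
  set D : V → ℝ := fun e => bd ρ (fun x => L x = some e) +
    ∑ s, (ct fun x => L x = some e ∧ X ((ρ (FreeGroup.of s))⁻¹ x) < (1 - b) * X x) with hD
  have hD0 : ∀ e, 0 ≤ D e := fun e => add_nonneg (bd_nonneg _ _) (sum_nonneg fun _ _ => ct_nonneg _)
  have hDsum : ∑ e, D e ≤ κ * τ / 2 * n := by
    have h1 : ∑ e, bd ρ (fun x => L x = some e) ≤ b * n := by
      refine (sum_le_sum fun e _ => hbd e).trans ?_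
      rw [← mul_sum]
      exact mul_le_mul_of_nonneg_left hszn hb0.le
    have h2 : ∑ e, ∑ s, (ct fun x => L x = some e ∧
        X ((ρ (FreeGroup.of s))⁻¹ x) < (1 - b) * X x) ≤ m * (b * n) := by
      rw [sum_comm]
      refine (sum_le_sum fun s _ => (hfib _).trans (hmon s)).trans ?_
      rw [sum_const, card_univ, Fintype.card_fin, nsmul_eq_mul]
    rw [hD, sum_add_distrib]
    nlinarith
  have mbad := markov (w := sz L) (show 0 < τ / 2 by linarith) hD0 hDsum
    (fun e => τ / 2 * sz L e < D e) (fun e he => he.le)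
  have mbad' : ∑ e ∈ univ.filter (fun e => τ / 2 * sz L e < D e), sz L e ≤ κ * n := by
    refine mbad.trans (le_of_eq ?_)
    field_simp
  -- pieces with many zeros
  have mzero := markov (w := sz L) (show (0 : ℝ) < 1 / 2 by norm_num)
    (fun e => ct_nonneg (fun x => L x = some e ∧ X x = 0)) ((hfib _).trans hX0)
    (fun e => 1 / 2 * sz L e ≤ ct (fun x => L x = some e ∧ X x = 0)) (fun e he => he)
  -- the values
  have hval : ∀ e, ∃ M : ℝ, ¬ τ / 2 * sz L e < D e →
      ¬ 1 / 2 * sz L e ≤ ct (fun x => L x = some e ∧ X x = 0) →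
      0 < M ∧ (ct fun x => L x = some e ∧ ¬ ((1 - b) ^ J * M ≤ X x ∧ (1 - b) ^ J * X x ≤ M)) ≤
        2 * κ * sz L e := by
    intro e
    by_cases h1 : τ / 2 * sz L e < D e
    · exact ⟨0, fun h => absurd h1 h⟩
    by_cases h2 : 1 / 2 * sz L e ≤ ct (fun x => L x = some e ∧ X x = 0)
    · exact ⟨0, fun _ h => absurd h2 h⟩
    have hpos : 0 < sz L e := by
      have h3 := ct_nonneg (fun x => L x = some e ∧ X x = 0)
      have h4 := sz_nonneg L e
      rw [not_le] at h2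
      linarith
    rcases level_piece (P := fun x => L x = some e) (hirr e) hκ1 hpos hX hc0 hc1
      (not_lt.1 h1) hJ0 hJ2 with h3 | ⟨M, hM, h3⟩
    · exfalso
      apply h2
      have h4 : sz L e ≤ 2 * ct (fun x => L x = some e ∧ X x = 0) := h3
      linarith
    · exact ⟨M, fun _ _ => ⟨hM, h3⟩⟩
  choose M hM using hval
  -- the good points
  set Gd : V → Prop := fun x => ∃ e, L x = some e ∧ 0 < M e ∧ (1 - b) ^ J * M e ≤ X x ∧
    (1 - b) ^ J * X x ≤ M e with hGd
  have hbadpt : (ct fun x => ¬ Gd x) ≤ 6 * κ * n := by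
    have h1 : (ct fun x => ¬ Gd x) ≤ (ct fun x => L x = none) +
        ∑ e, ct fun x => L x = some e ∧ ¬ Gd x := by
      rw [ct_fiber (fun x => ¬ Gd x) L, Fintype.sum_option]
      refine add_le_add (ct_mono fun x h => h.2) (le_of_eq (sum_congr rfl fun e _ =>
        ct_congr fun x => and_comm))
    have h2 : ∀ e, (ct fun x => L x = some e ∧ ¬ Gd x) ≤
        (if τ / 2 * sz L e < D e then sz L e else 0) +
        (if 1 / 2 * sz L e ≤ ct (fun x => L x = some e ∧ X x = 0) then sz L e else 0) +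
        2 * κ * sz L e := by
      intro e
      have h0 := sz_nonneg L e
      have hle : (ct fun x => L x = some e ∧ ¬ Gd x) ≤ sz L e := ct_mono fun x h => h.1
      have h00 : 0 ≤ 2 * κ * sz L e := by positivity
      split_ifs with c1 c2 c2
      · linarith
      · linarith
      · linarith
      · obtain ⟨hM0, hM1⟩ := hM e c1 c2
        have h3 : (ct fun x => L x = some e ∧ ¬ Gd x) ≤
          ct fun x => L x = some e ∧ ¬ ((1 - b) ^ J * M e ≤ X x ∧ (1 - b) ^ J * X x ≤ M e) :=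
          ct_mono fun x hx => ⟨hx.1, fun h4 => hx.2 ⟨e, hx.1, hM0, h4.1, h4.2⟩⟩
        linarith
    have h3 := sum_le_sum fun e (_ : e ∈ (univ : Finset V)) => h2 e
    rw [sum_add_distrib, sum_add_distrib, ← sum_filter, ← sum_filter, ← mul_sum] at h3
    have h4 : 2 * κ * ∑ e, sz L e ≤ 2 * κ * n := mul_le_mul_of_nonneg_left hszn (by positivity)
    have h5 : b * n ≤ κ * n := mul_le_mul_of_nonneg_right hb1 hn0
    have h6 : b * n / (1 / 2) = 2 * (b * n) := by ring
    rw [h6] at mzero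
    linarith
  have hcross : (ct fun x => ∃ e, L x = some e ∧ ¬ L ((ρ (FreeGroup.of s))⁻¹ x) = some e) ≤
      κ * n := by
    refine (ct_le_sum univ (fun e x => L x = some e ∧
      ¬ L ((ρ (FreeGroup.of s))⁻¹ x) = some e) fun x ⟨e, h⟩ => ⟨e, mem_univ _, h⟩).trans ?_
    have h1 : ∀ e, (ct fun x => L x = some e ∧ ¬ L ((ρ (FreeGroup.of s))⁻¹ x) = some e) ≤
        b * sz L e := by
      intro e
      rw [ct_inv_bd (ρ (FreeGroup.of s)) (fun x => L x = some e)]
      refine le_trans ?_ (hbd e)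
      exact single_le_sum (f := fun s => ct fun a => L a = some e ∧
        ¬ L (ρ (FreeGroup.of s) a) = some e) (fun _ _ => ct_nonneg _) (mem_univ s)
    refine (sum_le_sum fun e _ => h1 e).trans ?_
    rw [← mul_sum]
    nlinarith
  have hfin : (ct fun x => ¬ X ((ρ (FreeGroup.of s))⁻¹ x) ≤ (1 + δ) * X x) ≤
      (ct fun x => ¬ Gd x) + ((ct fun x => ¬ Gd ((ρ (FreeGroup.of s))⁻¹ x)) +
        ct fun x => ∃ e, L x = some e ∧ ¬ L ((ρ (FreeGroup.of s))⁻¹ x) = some e) := by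
    refine (ct_le_add (q := fun x => ¬ Gd x) (r := fun x => ¬ Gd ((ρ (FreeGroup.of s))⁻¹ x) ∨
      ∃ e, L x = some e ∧ ¬ L ((ρ (FreeGroup.of s))⁻¹ x) = some e) fun x hx => ?_).trans
      (add_le_add le_rfl (ct_le_add fun x hx => hx))
    by_contra hcon
    push Not at hcon
    obtain ⟨⟨e, he1, he2, he3, he4⟩, ⟨e', he1', he2', he3', he4'⟩, hL⟩ := hcon
    have hee : some e' = some e := he1'.symm.trans (hL e he1)
    rw [Option.some.injEq] at hee
    subst hee
    apply hx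
    have h1 : (1 - b) ^ J * (1 - b) ^ J * X ((ρ (FreeGroup.of s))⁻¹ x) ≤ X x := by
      calc (1 - b) ^ J * (1 - b) ^ J * X ((ρ (FreeGroup.of s))⁻¹ x)
          = (1 - b) ^ J * ((1 - b) ^ J * X ((ρ (FreeGroup.of s))⁻¹ x)) := by ring
        _ ≤ (1 - b) ^ J * M e' := mul_le_mul_of_nonneg_left he4' hcJ0.le
        _ ≤ _ := he3
    have h2 : 0 ≤ X ((ρ (FreeGroup.of s))⁻¹ x) := hX _
    calc X ((ρ (FreeGroup.of s))⁻¹ x) ≤
        (1 + δ) * ((1 - b) ^ J * (1 - b) ^ J) * X ((ρ (FreeGroup.of s))⁻¹ x) := by nlinarith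
      _ = (1 + δ) * ((1 - b) ^ J * (1 - b) ^ J * X ((ρ (FreeGroup.of s))⁻¹ x)) := by ring
      _ ≤ _ := mul_le_mul_of_nonneg_left h1 (by linarith)
  have hperm : (ct fun x => ¬ Gd ((ρ (FreeGroup.of s))⁻¹ x)) = ct fun x => ¬ Gd x :=
    ct_perm (fun x => ¬ Gd x) (ρ (FreeGroup.of s))⁻¹
  rw [hperm] at hfin
  nlinarith

end

end Pool.Agent.N69.NS
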